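import Pool.Agent.helper60.DA.SpecV

/-!
# Row dv:DN (MP_fb2c2a): degree and multiplicities of `D_n(y(s))`
-/

set_option autoImplicit false
set_option linter.unusedVariables false

namespace Pool.Agent.helper60.DA

open Polynomial Finset Pool.Agent.helper60.DK

theorem DN_deg (p : ℕ) [hp : Fact p.Prime] (h7 : 7 ≤ p) :
    (red p (Dz (nn p))).natDegree = nn p := by
  have hn : 2 * nn p < p := by
    unfold nn
    omega
  apply le_antisymm
  · rw [natDegree_le_iff_coeff_eq_zero]
    intro j hj
    rw [coeff_red_Dz, dc_of_lt hj]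
    simp
  · apply le_natDegree_of_ne_zero
    rw [coeff_red_Dz]
    unfold dc
    rw [Nat.choose_self, one_mul]
    intro h
    have h1 : (((nn p + nn p).choose (nn p) : ℕ) : ZMod p) = 0 := by exact_mod_cast h
    rw [ZMod.natCast_eq_zero_iff] at h1
    have h2 : (nn p + nn p).choose (nn p) ∣ (nn p + nn p).factorial := by
      have := Nat.choose_mul_factorial_mul_factorial (n := nn p + nn p) (k := nn p) (by omega)
      exact ⟨_, (by rw [← mul_assoc]; exact this.symm)⟩
    have h3 := (hp.out.dvd_factorial).1 (h1.trans h2)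
    omega

theorem DN_ys_eval (p : ℕ) [hp : Fact p.Prime] (a : ZMod p) :
    (ys p).eval a = (-1 / 4) * ((a - 1) ^ 2 * (a + 2)) := by
  unfold ys
  simp

theorem DN_ys_deriv (p : ℕ) [hp : Fact p.Prime] (a : ZMod p) :
    (derivative (ys p)).eval a = (-1 / 4) * (3 * ((a - 1) * (a + 1))) := by
  unfold ys
  have e : derivative ((X - 1) ^ 2 * (X + 2) : (ZMod p)[X])
      = 2 * (X - 1) * (X + 2) + (X - 1) ^ 2 := by
    have e2 : (C (2 : ZMod p) : (ZMod p)[X]) = 2 := map_ofNat C 2
    rw [derivative_mul, derivative_pow]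
    simp [e2]
  rw [derivative_C_mul, e]
  simp only [eval_mul, eval_C, eval_add, eval_sub, eval_pow, eval_X, eval_one, eval_ofNat]
  ring

theorem DN_ys_deg (p : ℕ) [hp : Fact p.Prime] (h7 : 7 ≤ p) : (ys p).natDegree = 3 := by
  have h4 : (4 : ZMod p) ≠ 0 := by
    have : (4 : ZMod p) = 2 * 2 := by norm_num
    rw [this]
    exact mul_ne_zero (two_ne (by omega)) (two_ne (by omega))
  have hc : (-1 / 4 : ZMod p) ≠ 0 := div_ne_zero (neg_ne_zero.2 one_ne_zero) h4
  have e1 : (X - 1 : (ZMod p)[X]) = X - C 1 := by rw [C_1]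
  have e2 : (X + 2 : (ZMod p)[X]) = X + C 2 := by rw [map_ofNat]
  unfold ys
  rw [natDegree_C_mul hc, e1, e2, natDegree_mul (pow_ne_zero _ (X_sub_C_ne_zero 1))
    (X_add_C_ne_zero 2), natDegree_pow, natDegree_X_sub_C, natDegree_X_add_C]

theorem DN (RD : RD_stmt) : DN_stmt := by
  intro p hp h7
  have h5 : 5 ≤ p := by omega
  have h4 : (4 : ZMod p) ≠ 0 := by
    have : (4 : ZMod p) = 2 * 2 := by norm_num
    rw [this]
    exact mul_ne_zero (two_ne h5) (two_ne h5)
  have hdeg : (Ds p).natDegree = 3 * nn p := by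
    unfold Ds
    rw [natDegree_comp, DN_deg p h7, DN_ys_deg p h7, mul_comm]
  refine ⟨hdeg, ?_⟩
  intro a ha
  have hn1 : 1 ≤ nn p := by
    unfold nn
    omega
  have hnp : nn p < p := by
    unfold nn
    omega
  have hDs : Ds p ≠ 0 := by
    intro h
    rw [h, natDegree_zero] at hdeg
    omega
  have hDs2 : Ds p ^ 2 ≠ 0 := pow_ne_zero _ hDs
  have hm1 : p ≤ rootMultiplicity a (Ds p ^ 2) := (le_rootMultiplicity_iff hDs2).2 ha
  have hm2 : rootMultiplicity a (Ds p ^ 2) = rootMultiplicity a (Ds p) + rootMultiplicity a (Ds p) := by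
    rw [pow_two, rootMultiplicity_mul (by rw [← pow_two]; exact hDs2)]
  have hm3 : 2 ≤ rootMultiplicity a (Ds p) := by omega
  obtain ⟨q, hq⟩ := (le_rootMultiplicity_iff hDs).1 hm3
  have hev : (Ds p).eval a = 0 := by
    rw [hq]
    simp
  have hev' : (derivative (Ds p)).eval a = 0 := by
    rw [hq, derivative_mul, derivative_pow]
    simp
  have e1 : (red p (Dz (nn p))).eval ((ys p).eval a) = 0 := by
    rw [← eval_comp]
    exact hev
  have e2 : (derivative (ys p)).eval a * (derivative (red p (Dz (nn p)))).eval ((ys p).eval a) = 0 := by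
    rw [← eval_comp, ← eval_mul, ← derivative_comp]
    exact hev'
  rcases mul_eq_zero.1 e2 with h | h
  · rw [DN_ys_deriv] at h
    have hc : (-1 / 4 : ZMod p) ≠ 0 := div_ne_zero (neg_ne_zero.2 one_ne_zero) h4
    have h' := (mul_eq_zero.1 ((mul_eq_zero.1 ((mul_eq_zero.1 h).resolve_left hc)).resolve_left
      (three_ne h5)))
    rcases h' with h' | h'
    · have ha1 : a = 1 := sub_eq_zero.1 h'
      have hy : (ys p).eval a = 0 := by
        rw [DN_ys_eval, ha1]
        simp
      rw [hy, ← coeff_zero_eq_eval_zero, coeff_red_Dz, dc_zero] at e1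
      simp at e1
    · have ha1 : a = -1 := by linear_combination h'
      have hy : (ys p).eval a = ((-1 : ℤ) : ZMod p) := by
        rw [DN_ys_eval, ha1]
        push_cast
        field_simp
        ring
      rw [hy, red_eval, Dz_eval_neg_one] at e1
      push_cast at e1
      exact pow_ne_zero _ (neg_ne_zero.2 (one_ne_zero (α := ZMod p))) e1
  · have hr := congrArg (eval ((ys p).eval a)) (RD p h5 (nn p) hn1 hnp)
    simp only [eval_mul, eval_sub, eval_pow, eval_one, e1, h, mul_zero, sub_zero] at hr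
    norm_num at hr

end Pool.Agent.helper60.DA
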