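import Pool.Agent.helper60.DA.SpecJ

/-!
# Row dj:DUP (MP_fb2c2a): the duplication formula for Jacobi sums modulo `p^2`
-/

set_option autoImplicit false
set_option linter.unusedVariables false

namespace Pool.Agent.helper60.DA

open Polynomial Finset Pool.Agent.helper60.DK

theorem DUP_sq {R F : Type} [CommRing R] [Field F] [Fintype F] [DecidableEq F]
    (hF : ringChar F ≠ 2) (f : F → R) :
    ∑ w : F, f (w ^ 2) = ∑ y : F, (((quadraticChar F y : ℤ) : R) + 1) * f y := by
  rw [← Finset.sum_fiberwise univ (fun w : F => w ^ 2) (fun w => f (w ^ 2))]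
  refine Finset.sum_congr rfl fun y _ => ?_
  have h1 : ∑ w ∈ univ.filter (fun w : F => w ^ 2 = y), f (w ^ 2)
      = ∑ w ∈ univ.filter (fun w : F => w ^ 2 = y), f y := by
    refine Finset.sum_congr rfl fun w hw => ?_
    rw [(Finset.mem_filter.1 hw).2]
  rw [h1, Finset.sum_const, nsmul_eq_mul]
  have h2 := quadraticChar_card_sqrts hF y
  have h3 : ({x : F | x ^ 2 = y} : Set F).toFinset = univ.filter (fun w : F => w ^ 2 = y) := by
    ext w
    simp
  rw [h3] at h2
  have h4 : ((((univ.filter (fun w : F => w ^ 2 = y)).card : ℤ)) : R)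
      = ((quadraticChar F y + 1 : ℤ) : R) := by rw [h2]
  rw [Int.cast_natCast, Int.cast_add, Int.cast_one] at h4
  rw [h4]

theorem DUP (OM : OM_stmt) (PS : PS_stmt) : DUP_stmt := by
  intro p _ h3 c h1 hc
  obtain ⟨hmul, h1', h0, hpow, hint, hrd, _⟩ := OM p h3
  have hp : p.Prime := Fact.out
  have hodd : p % 2 = 1 := by
    rcases hp.eq_two_or_odd with h | h
    · omega
    · exact h
  have hc' : c ≤ (p - 1) / 2 := hc
  obtain ⟨N, hN⟩ : ∃ N, N = p - 1 - c := ⟨_, rfl⟩
  have hNc : N + c = p - 1 := by omega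
  have hN0 : N ≠ 0 := by omega
  rw [← hN]
  have h20 : (2 : ZMod p) ≠ 0 := by
    intro h
    have : ((2 : ℕ) : ZMod p) = 0 := by exact_mod_cast h
    rw [ZMod.natCast_eq_zero_iff] at this
    have := Nat.le_of_dvd (by norm_num) this
    omega
  have h40 : (4 : ZMod p) ≠ 0 := by
    have : (4 : ZMod p) = 2 * 2 := by norm_num
    rw [this]
    exact mul_ne_zero h20 h20
  have hchar : ringChar (ZMod p) ≠ 2 := by
    rw [ZMod.ringChar_zmod_n]
    omega
  have hinv : ∀ u : ZMod p, u ≠ 0 → om p u * om p u⁻¹ = 1 := by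
    intro u hu
    rw [← hmul, mul_inv_cancel₀ hu, h1']
  have hinvc : ∀ u : ZMod p, u ≠ 0 → om p u⁻¹ ^ c = om p u ^ N := by
    intro u hu
    have e : om p u ^ N * (om p u ^ c * om p u⁻¹ ^ c) = om p u ^ N := by
      rw [← mul_pow, hinv u hu, one_pow, mul_one]
    rw [← e, ← mul_assoc, ← pow_add, hNc, hpow u hu, one_mul]
  have hinvN : ∀ u : ZMod p, u ≠ 0 → om p u⁻¹ ^ N = om p u ^ c := by
    intro u hu
    have e : om p u ^ c * (om p u ^ N * om p u⁻¹ ^ N) = om p u ^ c := by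
      rw [← mul_pow, hinv u hu, one_pow, mul_one]
    rw [← e, ← mul_assoc, ← pow_add, add_comm c N, hNc, hpow u hu, one_mul]
  have hm1 : om p (-1) = -1 := by
    have := hint (-1)
    have e1 : ((-1 : ℤ) : ZMod p) = -1 := by norm_num
    have e2 : ((-1 : ℤ) : ZMod (p ^ 2)) = -1 := by norm_num
    rw [e1, e2] at this
    rw [this]
    exact (Nat.odd_iff.2 hodd).neg_one_pow
  have hsgn : ((-1 : ZMod (p ^ 2))) ^ N = (-1) ^ c := by
    have e : ((-1 : ZMod (p ^ 2))) ^ N * ((-1) ^ c * (-1) ^ c) = (-1) ^ N := by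
      rw [← mul_pow]
      simp
    rw [← e, ← mul_assoc, ← pow_add, hNc]
    have : Even (p - 1) := by
      rw [Nat.even_iff]
      omega
    rw [this.neg_one_pow, one_mul]
  -- first step
  have hf1 : (fun t : ZMod p => om p t ^ N * om p (1 - t) ^ (2 * c)) 1 = 0 := by
    change om p 1 ^ N * om p (1 - 1) ^ (2 * c) = 0
    rw [sub_self, h0, zero_pow (by omega), mul_zero]
  have hg1 : (fun s : ZMod p => om p (s * (1 - s)) ^ N) 1 = 0 := by
    change om p (1 * (1 - 1)) ^ N = 0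
    rw [sub_self, mul_zero, h0, zero_pow hN0]
  have hg0 : (fun s : ZMod p => om p (s * (1 - s)) ^ N) 0 = 0 := by
    change om p (0 * (1 - 0)) ^ N = 0
    rw [zero_mul, h0, zero_pow hN0]
  have hL : ∑ t ∈ univ.erase (0 : ZMod p), om p t ^ N * om p (1 - t) ^ (2 * c)
      = (-1) ^ c * ∑ s : ZMod p, om p (s * (1 - s)) ^ N := by
    have E0 : ∑ t ∈ (univ.erase (0 : ZMod p)).erase 1, om p t ^ N * om p (1 - t) ^ (2 * c)
        = ∑ t ∈ univ.erase (0 : ZMod p), om p t ^ N * om p (1 - t) ^ (2 * c) :=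
      Finset.sum_erase (f := fun t : ZMod p => om p t ^ N * om p (1 - t) ^ (2 * c))
        (univ.erase (0 : ZMod p)) hf1
    rw [← E0]
    have e2 : ∑ s : ZMod p, om p (s * (1 - s)) ^ N
        = ∑ s ∈ (univ.erase (0 : ZMod p)).erase 1, om p (s * (1 - s)) ^ N := by
      have E1 : ∑ s ∈ (univ.erase (0 : ZMod p)).erase 1, om p (s * (1 - s)) ^ N
          = ∑ s ∈ univ.erase (0 : ZMod p), om p (s * (1 - s)) ^ N :=
        Finset.sum_erase (f := fun s : ZMod p => om p (s * (1 - s)) ^ N) (univ.erase (0 : ZMod p)) hg1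
      have E2 : ∑ s ∈ univ.erase (0 : ZMod p), om p (s * (1 - s)) ^ N
          = ∑ s : ZMod p, om p (s * (1 - s)) ^ N :=
        Finset.sum_erase (f := fun s : ZMod p => om p (s * (1 - s)) ^ N) univ hg0
      rw [E1, E2]
    rw [e2, Finset.mul_sum]
    have key : ∀ s ∈ (univ.erase (0 : ZMod p)).erase 1, s ≠ 1 ∧ s ≠ 0 ∧ s - 1 ≠ 0 ∧ 1 - s ≠ 0 := by
      intro s hs
      simp only [Finset.mem_erase, Finset.mem_univ, and_true] at hs
      exact ⟨hs.1, hs.2, sub_ne_zero.2 hs.1, sub_ne_zero.2 hs.1.symm⟩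
    have key2 : ∀ s ∈ (univ.erase (0 : ZMod p)).erase 1,
        s / (s - 1) ∈ (univ.erase (0 : ZMod p)).erase 1 := by
      intro s hs
      obtain ⟨a1, a2, a3, a4⟩ := key s hs
      simp only [Finset.mem_erase, Finset.mem_univ, and_true]
      refine ⟨?_, div_ne_zero a2 a3⟩
      intro h
      rw [div_eq_one_iff_eq a3] at h
      have : (1 : ZMod p) = 0 := by linear_combination h
      exact one_ne_zero this
    have key3 : ∀ s ∈ (univ.erase (0 : ZMod p)).erase 1,
        (s / (s - 1)) / (s / (s - 1) - 1) = s := by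
      intro s hs
      obtain ⟨a1, a2, a3, a4⟩ := key s hs
      have : s / (s - 1) - 1 = 1 / (s - 1) := by
        field_simp
        ring
      rw [this]
      field_simp
    symm
    refine Finset.sum_nbij' (fun s => s / (s - 1)) (fun s => s / (s - 1)) key2 key2 key3 key3 ?_
    intro s hs
    obtain ⟨a1, a2, a3, a4⟩ := key s hs
    have b1 : s / (s - 1) = (-1) * (s * (1 - s)⁻¹) := by
      rw [div_eq_mul_inv]
      have : (s - 1)⁻¹ = -(1 - s)⁻¹ := by
        rw [← inv_neg, neg_sub]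
      rw [this]
      ring
    have b2 : 1 - s / (s - 1) = (1 - s)⁻¹ := by
      refine (inv_eq_of_mul_eq_one_right ?_).symm
      have b0 : s / (s - 1) * (s - 1) = s := div_mul_cancel₀ s a3
      linear_combination b0
    change (-1) ^ c * om p (s * (1 - s)) ^ N
      = om p (s / (s - 1)) ^ N * om p (1 - s / (s - 1)) ^ (2 * c)
    rw [b2, b1, hmul, hmul, hm1, hmul, mul_pow, mul_pow, mul_pow, hsgn, mul_assoc, mul_assoc,
      ← pow_add]
    have b3 : N + 2 * c = (p - 1) + c := by omega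
    rw [b3, pow_add, hpow _ (inv_ne_zero a4), one_mul, hinvc _ a4]
  -- second step
  have hM : ∑ s : ZMod p, om p (s * (1 - s)) ^ N = ∑ w : ZMod p, om p ((1 - w ^ 2) * 4⁻¹) ^ N := by
    symm
    refine Finset.sum_nbij' (fun w => (1 - w) / 2) (fun s => 1 - 2 * s) ?_ ?_ ?_ ?_ ?_
    · intro w _
      exact Finset.mem_univ _
    · intro w _
      exact Finset.mem_univ _
    · intro w _
      change 1 - 2 * ((1 - w) / 2) = w
      field_simp
      ring
    · intro s _
      change (1 - (1 - 2 * s)) / 2 = s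
      field_simp
      ring
    · intro w _
      have : (1 - w ^ 2) * 4⁻¹ = (1 - w) / 2 * (1 - (1 - w) / 2) := by
        have h4 : (4 : ZMod p) = 2 * 2 := by norm_num
        rw [h4]
        field_simp
        ring
      change om p ((1 - w ^ 2) * 4⁻¹) ^ N = om p ((1 - w) / 2 * (1 - (1 - w) / 2)) ^ N
      rw [this]
  have hP : ∑ w : ZMod p, om p ((1 - w ^ 2) * 4⁻¹) ^ N
      = ∑ y : ZMod p, (qc p y + 1) * om p ((1 - y) * 4⁻¹) ^ N :=
    DUP_sq hchar (fun y => om p ((1 - y) * 4⁻¹) ^ N)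
  have hQ : ∑ y : ZMod p, (qc p y + 1) * om p ((1 - y) * 4⁻¹) ^ N
      = ∑ u : ZMod p, (qc p (1 - u) + 1) * om p (u * 4⁻¹) ^ N := by
    rw [← Equiv.sum_comp (Equiv.subLeft (1 : ZMod p))]
    refine Finset.sum_congr rfl fun u _ => ?_
    simp only [Equiv.subLeft_apply, sub_sub_cancel]
  have hz1 : (fun u : ZMod p => om p u ^ N * qc p (1 - u)) 0 = 0 := by
    change om p 0 ^ N * qc p (1 - 0) = 0
    rw [h0, zero_pow hN0, zero_mul]
  have hz2 : (fun u : ZMod p => om p u ^ N) 0 = 0 := by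
    change om p 0 ^ N = 0
    rw [h0, zero_pow hN0]
  have hps : ∑ u : ZMod p, om p u ^ N = 0 := by
    have E3 : ∑ u ∈ univ.erase (0 : ZMod p), om p u ^ N = ∑ u : ZMod p, om p u ^ N :=
      Finset.sum_erase (f := fun u : ZMod p => om p u ^ N) univ hz2
    rw [← E3, PS p h3 N, if_neg]
    intro hd
    have := Nat.le_of_dvd (by omega) hd
    omega
  have hR : ∑ u : ZMod p, (qc p (1 - u) + 1) * om p (u * 4⁻¹) ^ N
      = om p 4 ^ c * ∑ t ∈ univ.erase (0 : ZMod p), om p t ^ N * qc p (1 - t) := by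
    have E4 : ∑ u ∈ univ.erase (0 : ZMod p), om p u ^ N * qc p (1 - u)
        = ∑ u : ZMod p, om p u ^ N * qc p (1 - u) :=
      Finset.sum_erase (f := fun u : ZMod p => om p u ^ N * qc p (1 - u)) univ hz1
    rw [E4]
    have e : ∀ u : ZMod p, (qc p (1 - u) + 1) * om p (u * 4⁻¹) ^ N
        = om p 4 ^ c * (om p u ^ N * qc p (1 - u)) + om p 4 ^ c * om p u ^ N := by
      intro u
      rw [hmul, mul_pow, hinvN 4 h40]
      ring
    rw [Finset.sum_congr rfl fun u _ => e u, Finset.sum_add_distrib, ← Finset.mul_sum,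
      ← Finset.mul_sum, hps, mul_zero, add_zero]
  rw [hL, hM, hP, hQ, hR, mul_assoc]

end Pool.Agent.helper60.DA
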